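import Pool.Agent.Q42.SH.BesOne
import Pool.Agent.TH575.OM.FinT
import Pool.Agent.Q25.CH1

/-!
# The asymptotic form of Elliott's conjecture for almost all subsets of any family of functions and shifts

Let `H` be a set of `k` shifts and `f_h`, `h ∈ H`, DIFFERENT multiplicative functions with values in the unit disk, each
near some `z χ(p) p ^ {i t}` on the primes, `|z| = 1`, `|z - 1| ≥ ε`. For every order `m` the mean square of the
correlation of the `f_h(n + h)`, `h ∈ S`, over the `m`-element subsets `S` of `H` is at most `(1 + ε) / (k - m + 1)`, for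
natural averages at all dyadic scales `x / 2 ^ i` but few, uniformly in all the functions.
-/

set_option autoImplicit false

open Finset

namespace Pool.Agent.Results.MP_f3f922_nt.AlmostAllSubsets

/-- the twist `n ^ {i t}` -/
noncomputable def nit (t : ℝ) (n : ℕ) : ℂ := Complex.exp (((t * Real.log n : ℝ) : ℂ) * Complex.I)

/-- multiplicative functions with values in the unit disc -/
def Mult (f : ℕ → ℂ) : Prop :=
  (∀ n, ‖f n‖ ≤ 1) ∧ ∀ m n : ℕ, 1 ≤ m → 1 ≤ n → Nat.Coprime m n → f (m * n) = f m * f n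

/-- `f(p)` is near `z χ(p) p ^ {i t}`: the sum of `|f(p) - z χ(p) p ^ {i t}| / p` over the primes
`p₀ < p ≤ X` is at most `η` -/
def Near (p₀ q X : ℕ) (χ : DirichletCharacter ℂ q) (t : ℝ) (z : ℂ) (η : ℝ) (f : ℕ → ℂ) : Prop :=
  ∑ p ∈ (Ioc p₀ X).filter Nat.Prime, ‖f p - z * χ (p : ZMod q) * nit t p‖ / p ≤ η

/-- the correlation sum of the `f_h(n + h)`, `h ∈ S`, with the weights `ξ` -/
noncomputable def corr (f : ℕ → ℕ → ℂ) (ξ : ℕ → ℂ) (S : Finset ℕ) (M : ℕ) : ℂ :=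
  ∑ n ∈ Icc 1 M, ξ n * ∏ h ∈ S, f h (n + h)

open scoped Classical in
/-- The scale `M` is good for the functions `f_h`, `h ∈ H`, and `ε`: for all weights `|ξ| ≤ 1` and all `1 ≤ m ≤ k = |H|`
the sum over the `m`-element subsets `S` of `H` of the squares of the correlation sums is at most
`(1 + ε) M² C(k, m) / (k - m + 1)`; so for `δ > 0` at most `(1 + ε) C(k, m) / ((k - m + 1) δ²)` of them are at least `δ M`
in absolute value. -/
def Good (f : ℕ → ℕ → ℂ) (H : Finset ℕ) (ε : ℝ) (M : ℕ) : Prop :=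
  ∀ ξ : ℕ → ℂ, (∀ n, ‖ξ n‖ ≤ 1) → ∀ m : ℕ, 1 ≤ m → m ≤ H.card →
    ∑ S ∈ H.powersetCard m, ‖corr f ξ S M‖ ^ 2 ≤
      (1 + ε) * (M : ℝ) ^ 2 * ((H.card.choose m : ℝ) / ((H.card : ℝ) - m + 1)) ∧
    ∀ δ : ℝ, 0 < δ → (((H.powersetCard m).filter (fun S => δ * M ≤ ‖corr f ξ S M‖)).card : ℝ) ≤
      (1 + ε) * ((H.card.choose m : ℝ) / ((H.card : ℝ) - m + 1)) / δ ^ 2

lemma good_of (f : ℕ → ℕ → ℂ) (hf : ∀ h n, ‖f h n‖ ≤ 1) (H : Finset ℕ) (ε : ℝ) (hε : 0 < ε) (M : ℕ) (hM : 1 ≤ M)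
    (h : ∀ ξ : ℕ → ℂ, ∑ h ∈ H, ‖∑ n ∈ Icc 1 M, f h (n + h) * ξ n‖ ^ 2 ≤
      (1 + ε) * M * ∑ n ∈ Icc 1 M, ‖ξ n‖ ^ 2) : Good f H ε M := by
  classical
  have hM0 : (0 : ℝ) < M := by exact_mod_cast hM
  intro ξ hξ m hm hmH
  have hw : ∀ (T : Finset ℕ) (n : ℕ), ‖ξ n * ∏ h ∈ T, f h (n + h)‖ ≤ 1 := by
    intro T n
    rw [norm_mul, norm_prod]
    exact mul_le_one₀ (hξ n) (prod_nonneg fun _ _ => norm_nonneg _)
      (prod_le_one (fun _ _ => norm_nonneg _) fun j _ => hf j _)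
  have key : ∀ T ⊆ H, ∑ h ∈ H \ T, ‖corr f ξ (insert h T) M‖ ^ 2 ≤ (1 + ε) * (M : ℝ) ^ 2 := by
    intro T hT
    have h5 := h (fun n => ξ n * ∏ h ∈ T, f h (n + h))
    have h6 : ∑ n ∈ Icc 1 M, ‖ξ n * ∏ h ∈ T, f h (n + h)‖ ^ 2 ≤ (M : ℝ) := by
      refine (sum_le_sum fun n _ => pow_le_one₀ (norm_nonneg _) (hw T n)).trans ?_
      simp
    calc ∑ h ∈ H \ T, ‖corr f ξ (insert h T) M‖ ^ 2
        = ∑ h ∈ H \ T, ‖∑ n ∈ Icc 1 M, f h (n + h) * (ξ n * ∏ h ∈ T, f h (n + h))‖ ^ 2 := by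
          apply sum_congr rfl
          intro h hh
          rw [Finset.mem_sdiff] at hh
          congr 2
          unfold corr
          apply sum_congr rfl
          intro n _
          rw [prod_insert hh.2]
          ring
      _ ≤ ∑ h ∈ H, ‖∑ n ∈ Icc 1 M, f h (n + h) * (ξ n * ∏ h ∈ T, f h (n + h))‖ ^ 2 :=
          sum_le_sum_of_subset_of_nonneg sdiff_subset (fun _ _ _ => by positivity)
      _ ≤ (1 + ε) * M * ∑ n ∈ Icc 1 M, ‖ξ n * ∏ h ∈ T, f h (n + h)‖ ^ 2 := h5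
      _ ≤ (1 + ε) * M * M := mul_le_mul_of_nonneg_left h6 (by positivity)
      _ = (1 + ε) * (M : ℝ) ^ 2 := by ring
  have h7 := Pool.Agent.Q25.CH.bound H m hm hmH (fun S => ‖corr f ξ S M‖ ^ 2) _ key
  refine ⟨h7, fun δ hδ => ?_⟩
  have h8 := Pool.Agent.Q42.SH.few (H.powersetCard m) (fun S => ‖corr f ξ S M‖) _ (δ * M) (by positivity) h7
  refine le_trans (le_of_eq ?_) (h8.trans (le_of_eq ?_))
  · congr
  · field_simp

/-- a common positive lower bound -/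
lemma pos_lower {ι : Type*} (P : Finset ι) (f : ι → ℝ) (hf : ∀ p ∈ P, 0 < f p) :
    ∃ η : ℝ, 0 < η ∧ ∀ p ∈ P, η ≤ f p := by
  classical
  rcases P.eq_empty_or_nonempty with h | h
  · exact ⟨1, one_pos, by simp [h]⟩
  · obtain ⟨p, hp, h1⟩ := exists_min_image P f h
    exact ⟨f p, hf p hp, h1⟩

open scoped Classical in
/-- **Theorem.** Let `H` be a finite set of shifts, `q ≥ 1`, `ε > 0` and `p₀ ≥ 0`.  There are `η > 0` and `C`,
and for every `J` there are `δ₀ > 0` and `x₀`, such that for all `x ≥ x₀` and all families `f_h`, `h ∈ H`, of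
multiplicative functions with values in the unit disk such that for every `h ∈ H` there are `|t| ≤ δ₀ x`, a Dirichlet
character `χ` modulo `q` and `z` with `|z| = 1`, `|z - 1| ≥ ε` and
`∑_{p₀ < p ≤ 2 x} |f_h(p) - z χ(p) p ^ {i t}| / p ≤ η`: the `i ≤ J` for which the
scale `x / 2 ^ i` is not good for the `f_h`, `ε` satisfy `∑ 1/i ≤ C`. -/
theorem result (H : Finset ℕ) (q : ℕ) (hq : 1 ≤ q) (ε : ℝ) (hε : 0 < ε) (p₀ : ℕ) :
    ∃ η : ℝ, 0 < η ∧ ∃ C : ℝ, ∀ J : ℕ, ∃ δ₀ : ℝ, 0 < δ₀ ∧ ∃ x₀ : ℕ, ∀ x : ℕ, x₀ ≤ x →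
      ∀ f : ℕ → ℕ → ℂ, (∀ h, Mult (f h)) →
        (∀ h ∈ H, ∃ t : ℝ, |t| ≤ δ₀ * x ∧ ∃ (χ : DirichletCharacter ℂ q) (z : ℂ), ‖z‖ = 1 ∧ ε ≤ ‖z - 1‖ ∧
          Near p₀ q (2 * x) χ t z η (f h)) →
          ∑ i ∈ (Icc 1 J).filter (fun i => ¬ Good f H ε (x / 2 ^ i)), 1 / (i : ℝ) ≤ C := by
  set P : Finset (ℕ × ℕ) := (H ×ˢ H).filter (fun p => p.1 ≠ p.2) with hP
  set κ : ℝ := ε / (H.card + 1) with hκ
  have hκ0 : 0 < κ := by positivity
  have hκε : κ ≤ ε := by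
    rw [hκ, div_le_iff₀ (by positivity)]
    nlinarith [Nat.cast_nonneg (α := ℝ) H.card]
  have hκH : H.card * κ ≤ ε := by
    rw [hκ]
    calc H.card * (ε / (H.card + 1)) ≤ (H.card + 1) * (ε / (H.card + 1)) :=
          mul_le_mul_of_nonneg_right (by linarith) (by positivity)
      _ = ε := by field_simp
  have h1 : ∀ p : ℕ × ℕ, ∃ η : ℝ, 0 < η ∧ ∃ C : ℝ, p.1 ≠ p.2 → ∀ J : ℕ, ∃ δ : ℝ, 0 < δ ∧ ∃ x₀ : ℕ,
      ∀ x : ℕ, x₀ ≤ x → ∀ t : ℝ, |t| ≤ δ * x → ∀ (χ : DirichletCharacter ℂ q) (z : ℂ), ‖z‖ = 1 →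
        κ ≤ ‖z - 1‖ → ∀ f : ℕ → ℂ, Mult f → Near p₀ q (2 * x) χ t z η f → ∀ g : ℕ → ℂ, Mult g →
          ∑ i ∈ (Icc 1 J).filter (fun i => κ * ((x / 2 ^ i : ℕ) : ℝ) <
            ‖∑ n ∈ Icc 1 (x / 2 ^ i), f (n + p.1) * (starRingEnd ℂ) (g (n + p.2))‖), 1 / (i : ℝ) ≤ C := by
    intro p
    by_cases hp : p.1 ≠ p.2
    swap
    · exact ⟨1, one_pos, 0, fun hc => absurd hc hp⟩
    obtain ⟨η, hη, C, hC⟩ := Pool.Agent.TH575.OM.mainT 0 p.1 p.2 (fun j => j.elim0) hp p₀ q hq κ hκ0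
    refine ⟨η, hη, C, fun _ J => ?_⟩
    obtain ⟨δ, hδ, x₀, hx₀⟩ := hC J
    refine ⟨δ, hδ, x₀, fun x hx t ht χ z hz hz1 f hf hNf g hg => ?_⟩
    have h2 := hx₀ x hx t (fun j => j.elim0) ht (fun j => j.elim0) χ (fun j => j.elim0) z hz hz1 f
      (fun n => (starRingEnd ℂ) (g n)) (fun j => j.elim0) hf
      ⟨fun n => by rw [RCLike.norm_conj]; exact hg.1 n, fun m n hm hn hc => by
        show (starRingEnd ℂ) (g (m * n)) = (starRingEnd ℂ) (g m) * (starRingEnd ℂ) (g n)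
        rw [hg.2 m n hm hn hc, map_mul]⟩ (fun j => j.elim0) hNf (fun j => j.elim0)
    refine le_trans (sum_le_sum_of_subset_of_nonneg ?_ (fun i _ _ => by positivity)) h2
    intro i hi
    rw [mem_filter] at hi ⊢
    refine ⟨hi.1, ?_⟩
    have h3 := hi.2
    have h4 : ∑ n ∈ Icc 1 (x / 2 ^ i), f (n + p.1) * (starRingEnd ℂ) (g (n + p.2)) *
        ∏ j : Fin 0, (fun j : Fin 0 => (j.elim0 : ℕ → ℂ)) j (n + (fun j : Fin 0 => (j.elim0 : ℕ)) j) =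
        ∑ n ∈ Icc 1 (x / 2 ^ i), f (n + p.1) * (starRingEnd ℂ) (g (n + p.2)) := by
      refine sum_congr rfl fun n _ => ?_
      rw [Fin.prod_univ_zero, mul_one]
    have hM : (0 : ℝ) < ((x / 2 ^ i : ℕ) : ℝ) := by
      by_contra hc
      have h5 : x / 2 ^ i = 0 := by
        have : ((x / 2 ^ i : ℕ) : ℝ) = 0 := le_antisymm (not_lt.1 hc) (Nat.cast_nonneg _)
        exact_mod_cast this
      rw [h5] at h3
      simp at h3
    rw [h4, norm_div, Complex.norm_natCast, lt_div_iff₀ hM]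
    exact h3
  choose η hη C hC using h1
  obtain ⟨η₀, hη₀, hη₁⟩ := pos_lower P η (fun p _ => hη p)
  refine ⟨η₀, hη₀, ∑ p ∈ P, C p, fun J => ?_⟩
  have h2 : ∀ p : ℕ × ℕ, ∃ δ : ℝ, 0 < δ ∧ ∃ x₀ : ℕ, p.1 ≠ p.2 →
      ∀ x : ℕ, x₀ ≤ x → ∀ t : ℝ, |t| ≤ δ * x → ∀ (χ : DirichletCharacter ℂ q) (z : ℂ), ‖z‖ = 1 →
        κ ≤ ‖z - 1‖ → ∀ f : ℕ → ℂ, Mult f → Near p₀ q (2 * x) χ t z (η p) f → ∀ g : ℕ → ℂ, Mult g →
          ∑ i ∈ (Icc 1 J).filter (fun i => κ * ((x / 2 ^ i : ℕ) : ℝ) <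
            ‖∑ n ∈ Icc 1 (x / 2 ^ i), f (n + p.1) * (starRingEnd ℂ) (g (n + p.2))‖), 1 / (i : ℝ) ≤ C p := by
    intro p
    by_cases hp : p.1 ≠ p.2
    swap
    · exact ⟨1, one_pos, 0, fun hc => absurd hc hp⟩
    obtain ⟨δ, hδ, x₀, hx₀⟩ := hC p hp J
    exact ⟨δ, hδ, x₀, fun _ => hx₀⟩
  choose δ hδ x₀ hx₀ using h2
  obtain ⟨δ₀, hδ₀, hδ₁⟩ := pos_lower P δ (fun p _ => hδ p)
  refine ⟨δ₀, hδ₀, 2 ^ J + ∑ p ∈ P, x₀ p, fun x hx f hf hN => ?_⟩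
  have hxJ : 2 ^ J ≤ x := by omega
  have h3 : ∀ i ∈ Icc 1 J, (if ¬ Good f H ε (x / 2 ^ i) then 1 / (i : ℝ) else 0) ≤
      ∑ p ∈ P, if κ * ((x / 2 ^ i : ℕ) : ℝ) <
        ‖∑ n ∈ Icc 1 (x / 2 ^ i), f p.1 (n + p.1) * (starRingEnd ℂ) (f p.2 (n + p.2))‖ then 1 / (i : ℝ) else 0 := by
    intro i hi
    rw [mem_Icc] at hi
    have hs : 0 ≤ ∑ p ∈ P, if κ * ((x / 2 ^ i : ℕ) : ℝ) <
        ‖∑ n ∈ Icc 1 (x / 2 ^ i), f p.1 (n + p.1) * (starRingEnd ℂ) (f p.2 (n + p.2))‖ then 1 / (i : ℝ) else 0 :=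
      sum_nonneg fun p _ => by split_ifs <;> positivity
    by_cases hg : Good f H ε (x / 2 ^ i)
    · rw [if_neg (fun hc => hc hg)]
      exact hs
    · rw [if_pos hg]
      have hM1 : 1 ≤ x / 2 ^ i := by
        rw [Nat.one_le_div_iff (by positivity)]
        exact (Nat.pow_le_pow_right (by norm_num) hi.2).trans hxJ
      obtain ⟨a, ha, c, hc, hne, hbad⟩ : ∃ a ∈ H, ∃ c ∈ H, a ≠ c ∧ κ * ((x / 2 ^ i : ℕ) : ℝ) <
          ‖∑ n ∈ Icc 1 (x / 2 ^ i), f a (n + a) * (starRingEnd ℂ) (f c (n + c))‖ := by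
        by_contra hcc
        push Not at hcc
        apply hg
        refine good_of f (fun h n => (hf h).1 n) H ε hε _ hM1 fun ξ => ?_
        have h4 := Pool.Agent.Q42.SH.bessel H (Icc 1 (x / 2 ^ i)) (fun _ => 1) (fun _ => zero_le_one)
          (fun h n => f h (n + h)) ((x / 2 ^ i : ℕ) : ℝ) (Nat.cast_nonneg _) (fun h _ => by
            have : ∀ n ∈ Icc 1 (x / 2 ^ i), (1 : ℝ) * ‖f h (n + h)‖ ^ 2 ≤ 1 := by
              intro n _
              rw [one_mul]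
              exact pow_le_one₀ (norm_nonneg _) ((hf h).1 _)
            refine (sum_le_sum this).trans ?_
            simp) (κ * ((x / 2 ^ i : ℕ) : ℝ)) (by positivity) (fun a ha c hc hne => by
              refine le_trans (le_of_eq ?_) (hcc a ha c hc hne)
              congr 1
              refine sum_congr rfl fun n _ => ?_
              rw [Complex.ofReal_one, one_mul]) ξ
        have e1 : ∀ h ∈ H, ‖∑ n ∈ Icc 1 (x / 2 ^ i), f h (n + h) * ξ n‖ ^ 2 =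
            ‖∑ n ∈ Icc 1 (x / 2 ^ i), ((1 : ℝ) : ℂ) * (f h (n + h) * ξ n)‖ ^ 2 := by
          intro h _
          congr 2
          refine sum_congr rfl fun n _ => ?_
          rw [Complex.ofReal_one, one_mul]
        rw [sum_congr rfl e1]
        refine h4.trans ?_
        simp only [one_mul]
        refine mul_le_mul_of_nonneg_right ?_ (sum_nonneg fun _ _ => by positivity)
        have hM0 : (0 : ℝ) ≤ ((x / 2 ^ i : ℕ) : ℝ) := Nat.cast_nonneg _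
        have e2 : H.card * (κ * ((x / 2 ^ i : ℕ) : ℝ)) = H.card * κ * ((x / 2 ^ i : ℕ) : ℝ) := by ring
        rw [e2]
        nlinarith
      have hmem : (a, c) ∈ P := mem_filter.2 ⟨mem_product.2 ⟨ha, hc⟩, hne⟩
      have h5 := single_le_sum (f := fun p : ℕ × ℕ => if κ * ((x / 2 ^ i : ℕ) : ℝ) <
        ‖∑ n ∈ Icc 1 (x / 2 ^ i), f p.1 (n + p.1) * (starRingEnd ℂ) (f p.2 (n + p.2))‖ then 1 / (i : ℝ) else 0)
        (fun p _ => by split_ifs <;> positivity) hmem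
      simp only at h5
      rwa [if_pos hbad] at h5
  rw [sum_filter]
  refine (sum_le_sum h3).trans ?_
  rw [sum_comm]
  refine sum_le_sum fun p hp => ?_
  rw [← sum_filter]
  have hp1 := (mem_filter.1 hp).1
  have hp2 := (mem_filter.1 hp).2
  obtain ⟨t, ht, χ, z, hz, hz1, hNf⟩ := hN p.1 (mem_product.1 hp1).1
  refine hx₀ p hp2 x ?_ t (ht.trans ?_) χ z hz (hκε.trans hz1) (f p.1) (hf _) (le_trans hNf (hη₁ p hp)) (f p.2) (hf _)
  · have := single_le_sum (f := x₀) (fun _ _ => Nat.zero_le _) hp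
    exact this.trans ((Nat.le_add_left _ _).trans hx)
  · exact mul_le_mul_of_nonneg_right (hδ₁ p hp) (Nat.cast_nonneg x)

end Pool.Agent.Results.MP_f3f922_nt.AlmostAllSubsets
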