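import Pool.Agent.Q42.SH.BesOne
import Pool.Agent.TH575.OM.FinT

/-!
# The asymptotic form of Elliott's conjecture with arbitrary other factors, at all but few shifts

Let `f` be multiplicative with values in the unit disk and near `z χ(p) p ^ {i t}` on the primes, `|z| = 1`,
`|z - 1| ≥ ε`, and let `g_1, ..., g_k` be ARBITRARY sequences in the unit disk.  Of any given shifts `h` at
most `(1 + ε) / δ²` are such that the mean of `f(n + h) g_1(n + s_1) ⋯ g_k(n + s_k)` over `n ≤ M` is at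
least `δ` in absolute value, for natural averages at all dyadic scales `M = x / 2 ^ i` but few, uniformly
in all the functions.
-/

set_option autoImplicit false

open Finset

namespace Pool.Agent.Results.MP_f3f922_nt.ArbitraryOtherFactors

/-- the twist `n ^ {i t}` -/
noncomputable def nit (t : ℝ) (n : ℕ) : ℂ := Complex.exp (((t * Real.log n : ℝ) : ℂ) * Complex.I)

/-- multiplicative functions with values in the unit disc -/
def Mult (f : ℕ → ℂ) : Prop :=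
  (∀ n, ‖f n‖ ≤ 1) ∧ ∀ m n : ℕ, 1 ≤ m → 1 ≤ n → Nat.Coprime m n → f (m * n) = f m * f n

/-- `f(p)` is near `z χ(p) p ^ {i t}`: the sum of `|f(p) - z χ(p) p ^ {i t}| / p` over the primes
`p₀ < p ≤ X` is at most `η` -/
def Near (p₀ q X : ℕ) (χ : DirichletCharacter ℂ q) (t : ℝ) (z : ℂ) (η : ℝ) (f : ℕ → ℂ) : Prop :=
  ∑ p ∈ (Ioc p₀ X).filter Nat.Prime, ‖f p - z * χ (p : ZMod q) * nit t p‖ / p ≤ η

open scoped Classical in
/-- The scale `M` is good for the function `f`, the shifts `H` and `ε`: for every complex sequence `ξ`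
`∑_{h ∈ H} |∑_{n ≤ M} f(n + h) ξ(n)|² ≤ (1 + ε) M ∑_{n ≤ M} |ξ(n)|²`, and for every `k`, all functions
`g_1, ..., g_k` bounded by `1`, all shifts `s_1, ..., s_k` and every `δ > 0` at most `(1 + ε) / δ²` of the
`h ∈ H` are such that `|∑_{n ≤ M} f(n + h) g_1(n + s_1) ⋯ g_k(n + s_k)| ≥ δ M`. -/
def Good (f : ℕ → ℂ) (H : Finset ℕ) (ε : ℝ) (M : ℕ) : Prop :=
  (∀ ξ : ℕ → ℂ, ∑ h ∈ H, ‖∑ n ∈ Icc 1 M, f (n + h) * ξ n‖ ^ 2 ≤
    (1 + ε) * M * ∑ n ∈ Icc 1 M, ‖ξ n‖ ^ 2) ∧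
  ∀ (k : ℕ) (g : Fin k → ℕ → ℂ), (∀ j n, ‖g j n‖ ≤ 1) → ∀ (s : Fin k → ℕ) (δ : ℝ), 0 < δ →
    ((H.filter (fun h => δ * M ≤ ‖∑ n ∈ Icc 1 M, f (n + h) * ∏ j, g j (n + s j)‖)).card : ℝ) ≤
      (1 + ε) / δ ^ 2

lemma good_of (f : ℕ → ℂ) (H : Finset ℕ) (ε : ℝ) (hε : 0 < ε) (M : ℕ) (hM : 1 ≤ M)
    (h : ∀ ξ : ℕ → ℂ, ∑ h ∈ H, ‖∑ n ∈ Icc 1 M, f (n + h) * ξ n‖ ^ 2 ≤
      (1 + ε) * M * ∑ n ∈ Icc 1 M, ‖ξ n‖ ^ 2) : Good f H ε M := by
  classical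
  have hM0 : (0 : ℝ) < M := by exact_mod_cast hM
  refine ⟨h, fun k g hg s δ hδ => ?_⟩
  have h1 : ∀ n, ‖∏ j, g j (n + s j)‖ ≤ 1 := by
    intro n
    rw [norm_prod]
    exact prod_le_one (fun _ _ => norm_nonneg _) fun j _ => hg j _
  have h2 : ∑ h ∈ H, ‖∑ n ∈ Icc 1 M, f (n + h) * ∏ j, g j (n + s j)‖ ^ 2 ≤ (1 + ε) * M * M :=
    (h _).trans (mul_le_mul_of_nonneg_left (Pool.Agent.Q42.SH.sq_le_N _ h1 M) (by positivity))
  have h3 := Pool.Agent.Q42.SH.few H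
    (fun h => ‖∑ n ∈ Icc 1 M, f (n + h) * ∏ j, g j (n + s j)‖) _ (δ * M) (by positivity) h2
  refine le_trans ?_ (h3.trans (le_of_eq ?_))
  · exact_mod_cast le_of_eq (by congr)
  · field_simp

/-- a common positive lower bound -/
lemma pos_lower {ι : Type*} (P : Finset ι) (f : ι → ℝ) (hf : ∀ p ∈ P, 0 < f p) :
    ∃ η : ℝ, 0 < η ∧ ∀ p ∈ P, η ≤ f p := by
  classical
  rcases P.eq_empty_or_nonempty with h | h
  · exact ⟨1, one_pos, by simp [h]⟩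
  · obtain ⟨p, hp, h1⟩ := exists_min_image P f h
    exact ⟨f p, hf p hp, h1⟩

open scoped Classical in
/-- **Theorem.** Let `H` be a finite set of shifts, `q ≥ 1`, `ε > 0` and `p₀ ≥ 0`.  There are `η > 0` and `C`,
and for every `J` there are `δ₀ > 0` and `x₀`, such that for all `x ≥ x₀`, all `|t| ≤ δ₀ x`, all Dirichlet
characters `χ` modulo `q`, all `z` with `|z| = 1`, `|z - 1| ≥ ε`, and all multiplicative functions `f` with
values in the unit disk and `∑_{p₀ < p ≤ 2 x} |f(p) - z χ(p) p ^ {i t}| / p ≤ η`: the `i ≤ J` for which the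
scale `x / 2 ^ i` is not good for `f`, `H`, `ε` satisfy `∑ 1/i ≤ C`. -/
theorem result (H : Finset ℕ) (q : ℕ) (hq : 1 ≤ q) (ε : ℝ) (hε : 0 < ε) (p₀ : ℕ) :
    ∃ η : ℝ, 0 < η ∧ ∃ C : ℝ, ∀ J : ℕ, ∃ δ₀ : ℝ, 0 < δ₀ ∧ ∃ x₀ : ℕ, ∀ x : ℕ, x₀ ≤ x →
      ∀ t : ℝ, |t| ≤ δ₀ * x → ∀ (χ : DirichletCharacter ℂ q) (z : ℂ), ‖z‖ = 1 → ε ≤ ‖z - 1‖ →
        ∀ f : ℕ → ℂ, Mult f → Near p₀ q (2 * x) χ t z η f →
          ∑ i ∈ (Icc 1 J).filter (fun i => ¬ Good f H ε (x / 2 ^ i)), 1 / (i : ℝ) ≤ C := by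
  set P : Finset (ℕ × ℕ) := (H ×ˢ H).filter (fun p => p.1 ≠ p.2) with hP
  set κ : ℝ := ε / (H.card + 1) with hκ
  have hκ0 : 0 < κ := by positivity
  have hκε : κ ≤ ε := by
    rw [hκ, div_le_iff₀ (by positivity)]
    nlinarith [Nat.cast_nonneg (α := ℝ) H.card]
  have hκH : H.card * κ ≤ ε := by
    rw [hκ]
    calc H.card * (ε / (H.card + 1)) ≤ (H.card + 1) * (ε / (H.card + 1)) :=
          mul_le_mul_of_nonneg_right (by linarith) (by positivity)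
      _ = ε := by field_simp
  have h1 : ∀ p : ℕ × ℕ, ∃ η : ℝ, 0 < η ∧ ∃ C : ℝ, p.1 ≠ p.2 → ∀ J : ℕ, ∃ δ : ℝ, 0 < δ ∧ ∃ x₀ : ℕ,
      ∀ x : ℕ, x₀ ≤ x → ∀ t : ℝ, |t| ≤ δ * x → ∀ (χ : DirichletCharacter ℂ q) (z : ℂ), ‖z‖ = 1 →
        κ ≤ ‖z - 1‖ → ∀ f : ℕ → ℂ, Mult f → Near p₀ q (2 * x) χ t z η f →
          ∑ i ∈ (Icc 1 J).filter (fun i => κ * ((x / 2 ^ i : ℕ) : ℝ) <
            ‖∑ n ∈ Icc 1 (x / 2 ^ i), f (n + p.1) * (starRingEnd ℂ) (f (n + p.2))‖), 1 / (i : ℝ) ≤ C := by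
    intro p
    by_cases hp : p.1 ≠ p.2
    swap
    · exact ⟨1, one_pos, 0, fun hc => absurd hc hp⟩
    obtain ⟨η, hη, C, hC⟩ := Pool.Agent.TH575.OM.mainT 0 p.1 p.2 (fun j => j.elim0) hp p₀ q hq κ hκ0
    refine ⟨η, hη, C, fun _ J => ?_⟩
    obtain ⟨δ, hδ, x₀, hx₀⟩ := hC J
    refine ⟨δ, hδ, x₀, fun x hx t ht χ z hz hz1 f hf hNf => ?_⟩
    have h2 := hx₀ x hx t (fun j => j.elim0) ht (fun j => j.elim0) χ (fun j => j.elim0) z hz hz1 f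
      (fun n => (starRingEnd ℂ) (f n)) (fun j => j.elim0) hf
      ⟨fun n => by rw [RCLike.norm_conj]; exact hf.1 n, fun m n hm hn hc => by
        show (starRingEnd ℂ) (f (m * n)) = (starRingEnd ℂ) (f m) * (starRingEnd ℂ) (f n)
        rw [hf.2 m n hm hn hc, map_mul]⟩ (fun j => j.elim0) hNf (fun j => j.elim0)
    refine le_trans (sum_le_sum_of_subset_of_nonneg ?_ (fun i _ _ => by positivity)) h2
    intro i hi
    rw [mem_filter] at hi ⊢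
    refine ⟨hi.1, ?_⟩
    have h3 := hi.2
    have h4 : ∑ n ∈ Icc 1 (x / 2 ^ i), f (n + p.1) * (starRingEnd ℂ) (f (n + p.2)) *
        ∏ j : Fin 0, (fun j : Fin 0 => (j.elim0 : ℕ → ℂ)) j (n + (fun j : Fin 0 => (j.elim0 : ℕ)) j) =
        ∑ n ∈ Icc 1 (x / 2 ^ i), f (n + p.1) * (starRingEnd ℂ) (f (n + p.2)) := by
      refine sum_congr rfl fun n _ => ?_
      rw [Fin.prod_univ_zero, mul_one]
    have hM : (0 : ℝ) < ((x / 2 ^ i : ℕ) : ℝ) := by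
      by_contra hc
      have h5 : x / 2 ^ i = 0 := by
        have : ((x / 2 ^ i : ℕ) : ℝ) = 0 := le_antisymm (not_lt.1 hc) (Nat.cast_nonneg _)
        exact_mod_cast this
      rw [h5] at h3
      simp at h3
    rw [h4, norm_div, Complex.norm_natCast, lt_div_iff₀ hM]
    exact h3
  choose η hη C hC using h1
  obtain ⟨η₀, hη₀, hη₁⟩ := pos_lower P η (fun p _ => hη p)
  refine ⟨η₀, hη₀, ∑ p ∈ P, C p, fun J => ?_⟩
  have h2 : ∀ p : ℕ × ℕ, ∃ δ : ℝ, 0 < δ ∧ ∃ x₀ : ℕ, p.1 ≠ p.2 →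
      ∀ x : ℕ, x₀ ≤ x → ∀ t : ℝ, |t| ≤ δ * x → ∀ (χ : DirichletCharacter ℂ q) (z : ℂ), ‖z‖ = 1 →
        κ ≤ ‖z - 1‖ → ∀ f : ℕ → ℂ, Mult f → Near p₀ q (2 * x) χ t z (η p) f →
          ∑ i ∈ (Icc 1 J).filter (fun i => κ * ((x / 2 ^ i : ℕ) : ℝ) <
            ‖∑ n ∈ Icc 1 (x / 2 ^ i), f (n + p.1) * (starRingEnd ℂ) (f (n + p.2))‖), 1 / (i : ℝ) ≤ C p := by
    intro p
    by_cases hp : p.1 ≠ p.2
    swap
    · exact ⟨1, one_pos, 0, fun hc => absurd hc hp⟩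
    obtain ⟨δ, hδ, x₀, hx₀⟩ := hC p hp J
    exact ⟨δ, hδ, x₀, fun _ => hx₀⟩
  choose δ hδ x₀ hx₀ using h2
  obtain ⟨δ₀, hδ₀, hδ₁⟩ := pos_lower P δ (fun p _ => hδ p)
  refine ⟨δ₀, hδ₀, 2 ^ J + ∑ p ∈ P, x₀ p, fun x hx t ht χ z hz hz1 f hf hNf => ?_⟩
  have hxJ : 2 ^ J ≤ x := by omega
  have h3 : ∀ i ∈ Icc 1 J, (if ¬ Good f H ε (x / 2 ^ i) then 1 / (i : ℝ) else 0) ≤
      ∑ p ∈ P, if κ * ((x / 2 ^ i : ℕ) : ℝ) <
        ‖∑ n ∈ Icc 1 (x / 2 ^ i), f (n + p.1) * (starRingEnd ℂ) (f (n + p.2))‖ then 1 / (i : ℝ) else 0 := by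
    intro i hi
    rw [mem_Icc] at hi
    have hs : 0 ≤ ∑ p ∈ P, if κ * ((x / 2 ^ i : ℕ) : ℝ) <
        ‖∑ n ∈ Icc 1 (x / 2 ^ i), f (n + p.1) * (starRingEnd ℂ) (f (n + p.2))‖ then 1 / (i : ℝ) else 0 :=
      sum_nonneg fun p _ => by split_ifs <;> positivity
    by_cases hg : Good f H ε (x / 2 ^ i)
    · rw [if_neg (fun hc => hc hg)]
      exact hs
    · rw [if_pos hg]
      have hM1 : 1 ≤ x / 2 ^ i := by
        rw [Nat.one_le_div_iff (by positivity)]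
        exact (Nat.pow_le_pow_right (by norm_num) hi.2).trans hxJ
      obtain ⟨a, ha, c, hc, hne, hbad⟩ : ∃ a ∈ H, ∃ c ∈ H, a ≠ c ∧ κ * ((x / 2 ^ i : ℕ) : ℝ) <
          ‖∑ n ∈ Icc 1 (x / 2 ^ i), f (n + a) * (starRingEnd ℂ) (f (n + c))‖ := by
        by_contra hcc
        push Not at hcc
        apply hg
        refine good_of f H ε hε _ hM1 fun ξ => ?_
        have h4 := Pool.Agent.Q42.SH.bessel H (Icc 1 (x / 2 ^ i)) (fun _ => 1) (fun _ => zero_le_one)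
          (fun h n => f (n + h)) ((x / 2 ^ i : ℕ) : ℝ) (Nat.cast_nonneg _) (fun h _ => by
            have : ∀ n ∈ Icc 1 (x / 2 ^ i), (1 : ℝ) * ‖f (n + h)‖ ^ 2 ≤ 1 := by
              intro n _
              rw [one_mul]
              exact pow_le_one₀ (norm_nonneg _) (hf.1 _)
            refine (sum_le_sum this).trans ?_
            simp) (κ * ((x / 2 ^ i : ℕ) : ℝ)) (by positivity) (fun a ha c hc hne => by
              refine le_trans (le_of_eq ?_) (hcc a ha c hc hne)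
              congr 1
              refine sum_congr rfl fun n _ => ?_
              rw [Complex.ofReal_one, one_mul]) ξ
        have e1 : ∀ h ∈ H, ‖∑ n ∈ Icc 1 (x / 2 ^ i), f (n + h) * ξ n‖ ^ 2 =
            ‖∑ n ∈ Icc 1 (x / 2 ^ i), ((1 : ℝ) : ℂ) * (f (n + h) * ξ n)‖ ^ 2 := by
          intro h _
          congr 2
          refine sum_congr rfl fun n _ => ?_
          rw [Complex.ofReal_one, one_mul]
        rw [sum_congr rfl e1]
        refine h4.trans ?_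
        simp only [one_mul]
        refine mul_le_mul_of_nonneg_right ?_ (sum_nonneg fun _ _ => by positivity)
        have hM0 : (0 : ℝ) ≤ ((x / 2 ^ i : ℕ) : ℝ) := Nat.cast_nonneg _
        have e2 : H.card * (κ * ((x / 2 ^ i : ℕ) : ℝ)) = H.card * κ * ((x / 2 ^ i : ℕ) : ℝ) := by ring
        rw [e2]
        nlinarith
      have hmem : (a, c) ∈ P := mem_filter.2 ⟨mem_product.2 ⟨ha, hc⟩, hne⟩
      have h5 := single_le_sum (f := fun p : ℕ × ℕ => if κ * ((x / 2 ^ i : ℕ) : ℝ) <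
        ‖∑ n ∈ Icc 1 (x / 2 ^ i), f (n + p.1) * (starRingEnd ℂ) (f (n + p.2))‖ then 1 / (i : ℝ) else 0)
        (fun p _ => by split_ifs <;> positivity) hmem
      simp only at h5
      rwa [if_pos hbad] at h5
  rw [sum_filter]
  refine (sum_le_sum h3).trans ?_
  rw [sum_comm]
  refine sum_le_sum fun p hp => ?_
  rw [← sum_filter]
  have hp2 := (mem_filter.1 hp).2
  refine hx₀ p hp2 x ?_ t (ht.trans ?_) χ z hz (hκε.trans hz1) f hf (le_trans hNf (hη₁ p hp))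
  · have := single_le_sum (f := x₀) (fun _ _ => Nat.zero_le _) hp
    exact this.trans ((Nat.le_add_left _ _).trans hx)
  · exact mul_le_mul_of_nonneg_right (hδ₁ p hp) (Nat.cast_nonneg x)

end Pool.Agent.Results.MP_f3f922_nt.ArbitraryOtherFactors
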