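import Pool.Agent.TH823.EL.PolyU
import Pool.Agent.TH823.EL.Near
import Pool.Agent.Q56.TF.PSW3

/-!
# The asymptotic form of Elliott's conjecture: one factor far from all twisted characters on a window of primes, the other
factors arbitrary, for ALL tuples of shifts in boxes of power side around almost all tuples of members of real sequences

From the starting files: the theorem on families of integers (`Pool.Agent.TH823.EL.all_scales_E`) and the energy of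
polynomial values.
From Mathlib: `DirichletCharacter ℂ q`: the Dirichlet characters of modulus `q`; `Finset.Icc 1 X`: the integers `n` with
`1 ≤ n ≤ X`; `Fintype.piFinset S`: the tuples `m` with `m i ∈ S i` for all `i`; `starRingEnd ℂ`: complex conjugation;
`Polynomial ℤ`: the polynomials with integer coefficients; `P.eval m`: the value at `m`.
-/

set_option autoImplicit false

namespace Pool.Agent.Results.MP_f3f922_nt.FarFunctionsBoxes

open Finset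

/-- The function `f` on the positive integers as a function on the integers, `0` at the integers `m ≤ 0`. -/
noncomputable def ext (f : ℕ → ℂ) (m : ℤ) : ℂ := if 1 ≤ m then f m.toNat else 0

/-- The primes `p` with `y < p ≤ z`. -/
def primes (y z : ℕ) : Finset ℕ := (Ioc y z).filter Nat.Prime

/-- The integer part of `N ^ (1 / (2 D))`. -/
noncomputable def root (D N : ℕ) : ℕ := ⌊(N : ℝ) ^ (1 / (2 * D : ℝ))⌋₊

/-- The square of the pretentious distance between `f` and `χ(n) n ^ (i t)` over the primes `p` with `y < p ≤ z`. -/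
noncomputable def distSq {q : ℕ} (f : ℕ → ℂ) (χ : DirichletCharacter ℂ q) (t : ℝ) (y z : ℕ) : ℝ :=
  ∑ p ∈ primes y z, (1 - (f p * starRingEnd ℂ (χ (p : ZMod q)) *
    Complex.exp (-(((t * Real.log p : ℝ) : ℂ) * Complex.I))).re) / p

/-- At the scale `N`, with `Q = root D N`: `f (p n) = f p * f n` for all the primes `p` with `Q ^ 6 < p ≤ Q ^ D` and
all the `n` not divisible by `p` (for example `f` multiplicative), and over the primes `p` with `Q ^ 6 < p ≤ Q ^ (6 E)`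
the square of the distance between `f` and `χ(n) n ^ (i t)` is at least `κ` times the sum of the `1 / p`, for all
characters `χ` of modulus at most `Q` and all `|t| ≤ Q ^ 4`. -/
def Far (κ : ℝ) (E D N : ℕ) (f : ℕ → ℂ) : Prop :=
  (∀ p n : ℕ, p.Prime → root D N ^ 6 < p → p ≤ root D N ^ D → ¬ p ∣ n → f (p * n) = f p * f n) ∧
    ∀ q : ℕ, 1 ≤ q → q ≤ root D N → ∀ (χ : DirichletCharacter ℂ q) (t : ℝ), |t| ≤ (root D N : ℝ) ^ 4 →
      κ * ∑ p ∈ primes (root D N ^ 6) (root D N ^ (6 * E)), 1 / (p : ℝ) ≤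
        distSq f χ t (root D N ^ 6) (root D N ^ (6 * E))

open Classical in
/-- The number of the elements of the finite set `S` with the property `F`. -/
noncomputable def num {α : Type} (S : Finset α) (F : α → Prop) : ℝ := ((S.filter F).card : ℝ)

/-- The sequences: either `f m = κ P m` for a nonconstant polynomial `P` with integer coefficients, of degree `c`, and a
real number `κ ≠ 0`; or `f m = ∑ w_y m ^ y`, a sum over a finite set of real exponents, if the largest exponent `c` is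
greater than `1` and not an integer and `w_c ≠ 0` (for instance `f m = m ^ c`). -/
def RealSeq (f : ℕ → ℝ) (c : ℝ) : Prop :=
  (∃ (P : Polynomial ℤ) (κ : ℝ), 1 ≤ P.natDegree ∧ κ ≠ 0 ∧ c = P.natDegree ∧
    f = fun m : ℕ => κ * ((P.eval (m : ℤ) : ℤ) : ℝ)) ∨
  (∃ (F : Finset ℝ) (w : ℝ → ℝ), c ∈ F ∧ (∀ y ∈ F, y ≤ c) ∧ w c ≠ 0 ∧ 1 < c ∧ (∀ k : ℕ, c ≠ k) ∧
    f = fun m : ℕ => ∑ y ∈ F, w y * (m : ℝ) ^ y)

/-- For all `x i` with `N ^ (1 - δ) ≤ (x i) ^ (c i) ≤ A N` and all real `β i` in `[-A N, A N]`: for all the tuples `m`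
with `1 ≤ m i ≤ x i`, with at most `x 1 ⋯ x r / N ^ δ` exceptions, ALL the tuples `b` of integers with
`|b i - (β i + f i (m i))| ≤ N ^ δ` for all `i` satisfy `|∑ n ≤ X, ∏ i, g i (a i * n + b i)| ≤ ε N` for all
`a i ≤ A` and all `X ≤ N`. -/
def Boxes (A : ℕ) {r : ℕ} (f : Fin r → ℕ → ℝ) (c : Fin r → ℝ) (ε δ : ℝ) (N : ℕ) (g : Fin r → ℕ → ℂ) : Prop :=
  ∀ x : Fin r → ℕ, (∀ i, (x i : ℝ) ^ (c i) ≤ A * N ∧ (N : ℝ) ^ (1 - δ) ≤ (x i : ℝ) ^ (c i)) →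
    ∀ β : Fin r → ℝ, (∀ i, |β i| ≤ A * N) →
    num (Fintype.piFinset fun i => Icc 1 (x i)) (fun m => ¬ ∀ b : Fin r → ℤ,
      (∀ i, |(b i : ℝ) - (β i + f i (m i))| ≤ (N : ℝ) ^ δ) → ∀ a : Fin r → ℕ, (∀ i, 1 ≤ a i ∧ a i ≤ A) →
      ∀ X : ℕ, X ≤ N → ‖∑ n ∈ Icc 1 X, ∏ i, ext (g i) (a i * n + b i)‖ ≤ ε * N) ≤
        (∏ i, (x i : ℝ)) * (N : ℝ) ^ (-δ)

lemma RealSeq.base {f : ℕ → ℝ} {c : ℝ} (h : RealSeq f c) : Pool.Agent.Q56.TF.Base f c ∧ 1 ≤ c := by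
  rcases h with ⟨P, κ, hd, hκ, rfl, rfl⟩ | ⟨F, w, hcF, hmax, hwc, hc, hcn, rfl⟩
  · exact ⟨(Pool.Agent.Q56.TF.base_poly P hd).dil hκ, by exact_mod_cast hd⟩
  · exact ⟨Pool.Agent.Q56.TF.base_gp F w c hcF hmax hwc hc hcn, hc.le⟩

lemma num_le_sum {α β : Type} {S : Finset α} {E : α → Prop} (Es : Finset β) {F : β → α → Prop}
    (h : ∀ a ∈ S, E a → ∃ e ∈ Es, F e a) : num S E ≤ ∑ e ∈ Es, num S (F e) := by
  classical
  unfold num
  rw [← Nat.cast_sum]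
  apply Nat.cast_le.2
  refine le_trans ?_ card_biUnion_le
  apply card_le_card
  intro a ha
  rw [mem_filter] at ha
  obtain ⟨e, he, hF⟩ := h a ha.1 ha.2
  rw [mem_biUnion]
  exact ⟨e, he, mem_filter.2 ⟨ha.1, hF⟩⟩

/-- one choice of `a` -/
lemma boxes_one {A k : ℕ} {f : Fin (k + 1) → ℕ → ℝ} {c : Fin (k + 1) → ℝ} {ε δ δ' : ℝ} {N : ℕ} (hN : 1 ≤ N)
    (hδ0 : 0 ≤ δ') (hδ : δ' ≤ δ) {g : Fin (k + 1) → ℕ → ℂ} (hg : ∀ i n, ‖g i n‖ ≤ 1) (j : Fin (k + 1))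
    (h : Pool.Agent.Q56.TF.WG (g j) A ε δ (f j) (c j) N) (x : Fin (k + 1) → ℕ)
    (hx : ∀ i, (x i : ℝ) ^ (c i) ≤ A * N ∧ (N : ℝ) ^ (1 - δ) ≤ (x i : ℝ) ^ (c i)) (β : Fin (k + 1) → ℝ)
    (hβ : ∀ i, |β i| ≤ A * N) (a : Fin (k + 1) → ℕ) (ha : ∀ i, 1 ≤ a i ∧ a i ≤ A) :
    num (Fintype.piFinset fun i => Icc 1 (x i)) (fun m => ∃ b : Fin (k + 1) → ℤ,
      (∀ i, |(b i : ℝ) - (β i + f i (m i))| ≤ (N : ℝ) ^ δ') ∧ ∃ X : ℕ, X ≤ N ∧
      ε * N < ‖∑ n ∈ Icc 1 X, ∏ i, ext (g i) (a i * n + b i)‖) ≤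
      (∏ i, (x i : ℝ)) * ((7 : ℝ) ^ k * (N : ℝ) ^ (k * δ') * (N : ℝ) ^ (-δ)) := by
  classical
  refine le_trans (le_of_eq (by unfold num; congr!)) (Pool.Agent.Q56.TF.tuples_win hN hδ0 hδ h x (hx j) β
    (hβ j) (ha j).1
    (fun b n => ∏ i : Fin k, ext (g (j.succAbove i)) (a (j.succAbove i) * n + b i)) ?_
    (fun m => ∃ b : Fin (k + 1) → ℤ, (∀ i, |(b i : ℝ) - (β i + f i (m i))| ≤ (N : ℝ) ^ δ') ∧ ∃ X : ℕ, X ≤ N ∧
      ε * N < ‖∑ n ∈ Icc 1 X, ∏ i, ext (g i) (a i * n + b i)‖) ?_)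
  · intro b n
    rw [norm_prod]
    apply prod_le_one (fun _ _ => norm_nonneg _)
    intro i _
    unfold ext
    split_ifs
    · exact hg _ _
    · rw [norm_zero]; exact zero_le_one
  · rintro m ⟨b, hb, X, hX, h1⟩
    refine ⟨b, hb, X, Nat.mul_le_mul (ha j).2 hX, lt_of_lt_of_eq h1 ?_⟩
    congr 1
    apply sum_congr rfl
    intro n _
    rw [Fin.prod_univ_succAbove _ j, mul_comm]
    rfl

lemma boxes_of {A k : ℕ} {f : Fin (k + 1) → ℕ → ℝ} {c : Fin (k + 1) → ℝ} {ε δ : ℝ} {N : ℕ} (hN : 1 ≤ N)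
    (hδ : 0 < δ) (hN2 : ((A ^ (k + 1) : ℕ) : ℝ) * 7 ^ k ≤ (N : ℝ) ^ (δ / 4))
    {g : Fin (k + 1) → ℕ → ℂ} (hg : ∀ i n, ‖g i n‖ ≤ 1) (j : Fin (k + 1))
    (h : Pool.Agent.Q56.TF.WG (g j) A ε δ (f j) (c j) N) : Boxes A f c ε (δ / (4 * (k + 1))) N g := by
  classical
  have hk0 : (0 : ℝ) < (k : ℝ) + 1 := by positivity
  obtain ⟨δ', hδ'⟩ : ∃ δ' : ℝ, δ' = δ / (4 * (k + 1)) := ⟨_, rfl⟩
  rw [← hδ']
  have hδ'0 : 0 < δ' := by rw [hδ']; positivity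
  have hk4 : (4 * (k + 1) : ℝ) * δ' = δ := by rw [hδ']; field_simp
  have hkk : (0 : ℝ) ≤ k * δ' := by positivity
  have hδ4 : δ' ≤ δ / 4 := by nlinarith
  have hkδ : (k : ℝ) * δ' ≤ δ / 4 := by nlinarith
  have hN0 : (0 : ℝ) < N := by exact_mod_cast (by omega : 0 < N)
  have hN1 : (1 : ℝ) ≤ N := by exact_mod_cast hN
  intro x hx β hβ
  have hx' : ∀ i, (x i : ℝ) ^ (c i) ≤ A * N ∧ (N : ℝ) ^ (1 - δ) ≤ (x i : ℝ) ^ (c i) := fun i =>
    ⟨(hx i).1, (Real.rpow_le_rpow_of_exponent_le hN1 (by linarith)).trans (hx i).2⟩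
  have h3 : num (Fintype.piFinset fun i => Icc 1 (x i)) (fun m => ¬ ∀ b : Fin (k + 1) → ℤ,
      (∀ i, |(b i : ℝ) - (β i + f i (m i))| ≤ (N : ℝ) ^ δ') → ∀ a : Fin (k + 1) → ℕ, (∀ i, 1 ≤ a i ∧ a i ≤ A) →
      ∀ X : ℕ, X ≤ N → ‖∑ n ∈ Icc 1 X, ∏ i, ext (g i) (a i * n + b i)‖ ≤ ε * N) ≤
      ∑ a ∈ (Fintype.piFinset fun _ : Fin (k + 1) => Icc 1 A),
      num (Fintype.piFinset fun i => Icc 1 (x i)) (fun m => ∃ b : Fin (k + 1) → ℤ,
        (∀ i, |(b i : ℝ) - (β i + f i (m i))| ≤ (N : ℝ) ^ δ') ∧ ∃ X : ℕ, X ≤ N ∧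
        ε * N < ‖∑ n ∈ Icc 1 X, ∏ i, ext (g i) (a i * n + b i)‖) := by
    apply num_le_sum
    intro m _ hm
    by_contra hcon
    apply hm
    intro b hb a ha X hX
    by_contra h4
    apply hcon
    exact ⟨a, Fintype.mem_piFinset.2 fun i => mem_Icc.2 (ha i), b, hb, X, hX, lt_of_not_ge h4⟩
  refine h3.trans ?_
  obtain ⟨Y, hY⟩ : ∃ Y : ℝ, Y = (∏ i, (x i : ℝ)) * ((7 : ℝ) ^ k * (N : ℝ) ^ (k * δ') * (N : ℝ) ^ (-δ)) := ⟨_, rfl⟩
  have hY0 : 0 ≤ Y := by rw [hY]; positivity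
  refine (sum_le_sum (g := fun _ => Y) ?_).trans ?_
  · intro a ha
    rw [Fintype.mem_piFinset] at ha
    rw [hY]
    exact boxes_one hN hδ'0.le (by linarith) hg j h x hx' β hβ a (fun i => mem_Icc.1 (ha i))
  · rw [sum_const, nsmul_eq_mul]
    have h4 : ((Fintype.piFinset fun _ : Fin (k + 1) => Icc 1 A).card : ℝ) = ((A ^ (k + 1) : ℕ) : ℝ) := by
      rw [Fintype.card_piFinset]
      simp only [Nat.card_Icc, Nat.add_sub_cancel, prod_const, card_univ, Fintype.card_fin]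
    rw [h4]
    calc ((A ^ (k + 1) : ℕ) : ℝ) * Y
        = (∏ i, (x i : ℝ)) * ((((A ^ (k + 1) : ℕ) : ℝ) * 7 ^ k) * (N : ℝ) ^ (k * δ') * (N : ℝ) ^ (-δ)) := by
          rw [hY]; ring
      _ ≤ (∏ i, (x i : ℝ)) * ((N : ℝ) ^ (δ / 4) * (N : ℝ) ^ (δ / 4) * (N : ℝ) ^ (-δ)) := by
          apply mul_le_mul_of_nonneg_left _ (by positivity)
          apply mul_le_mul_of_nonneg_right _ (by positivity)
          exact mul_le_mul hN2 (Real.rpow_le_rpow_of_exponent_le hN1 hkδ) (by positivity) (by positivity)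
      _ ≤ _ := by
          apply mul_le_mul_of_nonneg_left _ (by positivity)
          rw [← Real.rpow_add hN0, ← Real.rpow_add hN0]
          exact Real.rpow_le_rpow_of_exponent_le hN1 (by linarith)

lemma npw_of {κ : ℝ} {E D N : ℕ} {f : ℕ → ℂ} (h : Far κ E D N f) :
    Pool.Agent.TH823.EL.NPW κ (root D N) (root D N ^ 6) (root D N ^ (6 * E)) f := by
  intro q _ hq χ t ht
  have h1 := h.2 q (Nat.pos_of_ne_zero (NeZero.ne q)) hq χ⁻¹ t ht
  have e1 : Pool.Agent.TH823.PS.WP (Pool.Agent.TH823.PS.PP (root D N ^ 6) (root D N ^ (6 * E))) =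
      ∑ p ∈ primes (root D N ^ 6) (root D N ^ (6 * E)), 1 / (p : ℝ) := rfl
  have e2 : distSq f χ⁻¹ t (root D N ^ 6) (root D N ^ (6 * E)) =
      ∑ p ∈ primes (root D N ^ 6) (root D N ^ (6 * E)), 1 / (p : ℝ) -
      ∑ p ∈ Pool.Agent.TH823.PS.PP (root D N ^ 6) (root D N ^ (6 * E)), (f p * χ (p : ZMod q) *
        Complex.exp (-(((t * Real.log p : ℝ) : ℂ) * Complex.I))).re / p := by
    unfold distSq
    rw [show Pool.Agent.TH823.PS.PP (root D N ^ 6) (root D N ^ (6 * E)) =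
      primes (root D N ^ 6) (root D N ^ (6 * E)) from rfl, ← sum_sub_distrib]
    apply sum_congr rfl
    intro p _
    have e3 : starRingEnd ℂ ((χ⁻¹ : DirichletCharacter ℂ q) (p : ZMod q)) = χ (p : ZMod q) := by
      have e4 : (χ⁻¹ : DirichletCharacter ℂ q) (p : ZMod q) = starRingEnd ℂ (χ (p : ZMod q)) :=
        (MulChar.star_apply' χ _).symm
      rw [e4]
      exact Complex.conj_conj _
    rw [e3, sub_div]
  rw [e2] at h1
  rw [e1]
  linarith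

/-- Let `f 1, ..., f r` be real sequences (real multiples of nonconstant integer polynomials, or generalised polynomials
whose largest exponent is greater than `1` and not an integer, e.g. `m ^ c`), let `A`, `E₀` be integers, `0 < κ ≤ 1` and
`ε > 0`. There are `E > E₀`, `D ≥ 6 E + 2` and `δ > 0` such that, for all large `N`, uniformly in arbitrary functions
`g 1, ..., g r` bounded by `1` one of which is multiplicative (with respect to the primes between `N ^ (3 / D)` and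
`N ^ (1 / 2)`) and far from all the `χ(n) n ^ (i t)`, `χ` of modulus at most `N ^ (1 / (2 D))` and `|t| ≤ N ^ (2 / D)`,
over the primes between `N ^ (3 / D)` and `N ^ (3 E / D)` (the square of the pretentious distance is at least `κ` times
its trivial order of magnitude): for all `x i` with `N ^ (1 - δ) ≤ (x i) ^ (c i) ≤ A N`, all real `β i` in `[-A N, A N]`
and all the tuples `m` with `1 ≤ m i ≤ x i` but `x 1 ⋯ x r / N ^ δ` of them, ALL the tuples `b` of integers with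
`|b i - (β i + f i (m i))| ≤ N ^ δ` satisfy `|∑ n ≤ X, ∏ i, g i (a i * n + b i)| ≤ ε N` for all `a i ≤ A` and all
`X ≤ N`. -/
theorem result (A r E₀ : ℕ) (f : Fin r → ℕ → ℝ) (c : Fin r → ℝ) (hf : ∀ i, RealSeq (f i) (c i)) (κ : ℝ) (hκ : 0 < κ)
    (hκ1 : κ ≤ 1) (ε : ℝ) (hε : 0 < ε) :
    ∃ E D : ℕ, E₀ < E ∧ 6 * E + 2 ≤ D ∧ ∃ δ : ℝ, 0 < δ ∧ ∃ N₀ : ℕ, ∀ N : ℕ, N₀ ≤ N →
      ∀ g : Fin r → ℕ → ℂ, (∀ i n, ‖g i n‖ ≤ 1) → (∃ j, Far κ E D N (g j)) → Boxes A f c ε δ N g := by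
  classical
  obtain ⟨P, B, hP1, hAB, hwg⟩ := Pool.Agent.Q56.TF.wg_of_good A f c (fun i => (hf i).base.1) (fun i => (hf i).base.2)
  obtain ⟨τ, hτ, E, D, hE, hD, δ₀, hδ₀, Q0, hQ03, hQ0⟩ := Pool.Agent.TH823.EL.all_scales_E E₀ κ
    hκ hκ1 B 1 P (fun i : Empty => i.elim) (fun i => i.elim) hε
  obtain ⟨δ, hδ, hδ1, N₂, hN₂⟩ := hwg δ₀ hδ₀
  obtain ⟨N₀, hN₀⟩ := Pool.Agent.TH823.EL.scale_root D (by omega) (Q0 + 14)
  obtain ⟨N₃, hN₃⟩ := Pool.Agent.Q56.TF.ev_rpow (δ / 4) (((A ^ r : ℕ) : ℝ) * 7 ^ (r - 1)) (by positivity)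
  refine ⟨E, D, hE, hD, δ / (4 * ((r - 1 : ℕ) + 1)), by positivity, N₀ + N₂ + N₃ + 1, fun N hN g hg hj => ?_⟩
  obtain ⟨j, hfar⟩ := hj
  rcases r with _ | k
  · exact j.elim0
  · obtain ⟨h1, h2, h3⟩ := hN₀ N (by omega)
    have hQ : ⌊(N : ℝ) ^ (1 / (2 * D : ℝ))⌋₊ = root D N := rfl
    rw [hQ] at h1 h2 h3
    have hwin : Pool.Agent.TH823.EL.Win (root D N ^ 6) (root D N ^ D) 0 (g j) (g j) :=
      ⟨hg j, hg j, fun p n hp h4 h5 h6 => by rw [hfar.1 p n hp h4 h5 h6, sub_self, norm_zero]⟩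
    have h4 := hQ0 (root D N) (by omega) (g j) (g j) 0 le_rfl hτ.le hwin (npw_of hfar) N h2 h3
    have h5 := hN₃ N (by omega)
    simp only [Nat.add_sub_cancel] at h5 ⊢
    exact boxes_of (by omega) hδ h5 hg j (hN₂ N (by omega) (g j) ε hε h4.1 j)

end Pool.Agent.Results.MP_f3f922_nt.FarFunctionsBoxes
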