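import Pool.Agent.Q42.SH.Unif

/-!
# The asymptotic form of Elliott's conjecture: `k` factors `z ^ Ω(n) κ_j(n)` in progression, uniformly

For every number `k` of factors, shifts `h, h + t, ..., h + (k-1) t`, and functions
`f_j(n) = z ^ Ω(n) κ_j(n)`, `|z| = 1`, `|z - 1| ≥ δ`, `κ_j` periodic with a period at most `Q`, the
correlation up to `N` is at most `1 / √2 + ε` for most scales `N ≤ X`, uniformly in all the functions, with
arbitrary quadratic phases and partial sums.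
-/

set_option autoImplicit false

open Finset Filter

namespace Pool.Agent.Results.MP_f3f922_nt.UniformProgressions

/-- `Ω(n)`, the number of prime factors counted with multiplicity -/
def Om (n : ℕ) : ℕ := ArithmeticFunction.cardFactors n

/-- `e(x) = exp(2 π i x)` -/
noncomputable def e (x : ℝ) : ℂ := Complex.exp (2 * Real.pi * x * Complex.I)

/-- `f j (n) = z ^ Ω(n) κ_j(n)` for `j = 0, 1, 2, ...`, with functions `κ_j` bounded by `1` which have a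
common period `q ≤ Q` -/
def OmegaFamily (z : ℂ) (Q : ℕ) (f : ℕ → ℕ → ℂ) : Prop := ∃ (q : ℕ) (κ : ℕ → ℕ → ℂ), 1 ≤ q ∧ q ≤ Q ∧
  (∀ j n, ‖κ j n‖ ≤ 1) ∧ (∀ j n, κ j (n + q) = κ j n) ∧ ∀ j n, f j n = z ^ Om n * κ j n

open Classical in
/-- **Theorem.** Let `k, t ≥ 1`, `h, Q ≥ 0` and `δ, ε > 0`.  There is `X₀` such that for all `X ≥ X₀`, all `z` with
`|z| = 1` and `|z - 1| ≥ δ` and all `f_j(n) = z ^ Ω(n) κ_j(n)`, `κ_j` bounded by `1` and periodic with a common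
period at most `Q`:
* for all `y_N ≤ N`: all `N ≤ X` outside a set `T` with `∑_{N ∈ T, N ≤ X} 1/N ≤ ε log X` satisfy
  `|∑_{n ≤ y_N} f_0(n + h) f_1(n + h + t) ⋯ f_{k-1}(n + h + (k-1) t) e(α n² + β n)| ≤ (1/√2 + ε) N` for all real
  `α`, `β`;
* `|∑_{n ≤ X} f_0(n + h) ⋯ f_{k-1}(n + h + (k-1) t) e(α n² + β n) / n| ≤ (1/√2 + ε) log X` for all real `α`, `β`. -/
theorem result (k t h Q : ℕ) (hk : 1 ≤ k) (ht : 1 ≤ t) (δ : ℝ) (hδ : 0 < δ) (ε : ℝ) (hε : 0 < ε) :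
    ∃ X₀ : ℕ, ∀ X : ℕ, X₀ ≤ X → ∀ z : ℂ, ‖z‖ = 1 → δ ≤ ‖z - 1‖ → ∀ f : ℕ → ℕ → ℂ, OmegaFamily z Q f →
      (∀ y : ℕ → ℕ, (∀ N, y N ≤ N) → ∃ T : Set ℕ,
        (∑ N ∈ Icc 1 X, if N ∈ T then (1 : ℝ) / N else 0) ≤ ε * Real.log X ∧
        ∀ N : ℕ, 1 ≤ N → N ≤ X → N ∉ T → ∀ α β : ℝ,
          ‖∑ n ∈ Icc 1 (y N), (∏ j ∈ range k, f j (n + h + j * t)) * e (α * (n : ℝ) ^ 2 + β * n)‖ ≤
            (1 / √2 + ε) * N) ∧
      ∀ α β : ℝ,
        ‖∑ n ∈ Icc 1 X, (∏ j ∈ range k, f j (n + h + j * t)) * e (α * (n : ℝ) ^ 2 + β * n) / n‖ ≤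
            (1 / √2 + ε) * Real.log X := by
  have hs : (1 : ℝ) / √2 = √2 / 2 := by
    have s2 : √2 * √2 = 2 := Real.mul_self_sqrt (by norm_num)
    have s0 : 0 < √2 := Real.sqrt_pos.2 (by norm_num)
    rw [div_eq_div_iff s0.ne' (by norm_num)]
    linarith
  rw [hs]
  obtain ⟨X₁, h1⟩ := Pool.Agent.Q42.SH.prog_unif k t h Q hk ht δ hδ ε hε
  obtain ⟨X₂, h2⟩ := Pool.Agent.Q42.SH.prog_unif k t h Q hk ht δ hδ (ε / 4) (by positivity)
  have hlog : Tendsto (fun X : ℕ => Real.log X) atTop atTop :=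
    Real.tendsto_log_atTop.comp tendsto_natCast_atTop_atTop
  obtain ⟨X₃, hX₃⟩ := eventually_atTop.1 (hlog.eventually_ge_atTop ((√2 / 2 + ε + 1) * 4 / ε))
  refine ⟨X₁ + X₂ + X₃, fun X hX z hz hz1 f hf => ?_⟩
  obtain ⟨q, κ, hq1, hqQ, hκ, hκq, hfκ⟩ := hf
  have hph : ∀ (n : ℕ) (α β : ℝ),
      (∏ j ∈ range k, f j (n + h + j * t)) * e (α * (n : ℝ) ^ 2 + β * n) =
        Pool.Agent.Q42.SH.Pk z κ k t (n + h) * Pool.Agent.Q42.SH.ph α β n := by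
    intro n α β
    have a1 : ∏ j ∈ range k, f j (n + h + j * t) = Pool.Agent.Q42.SH.Pk z κ k t (n + h) :=
      prod_congr rfl fun j _ => hfκ j _
    have a2 : e (α * (n : ℝ) ^ 2 + β * n) = Pool.Agent.Q42.SH.ph α β n := rfl
    rw [a1, a2]
  constructor
  · intro y hy
    obtain ⟨T, hT1, hT2⟩ := h1 X (by omega) z hz hz1 q hq1 hqQ κ hκ hκq y hy
    refine ⟨T, hT1, fun N hN1 hNX hNT α β => ?_⟩
    rw [sum_congr rfl fun n _ => hph n α β]
    exact hT2 N hN1 hNX hNT α β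
  · intro α β
    obtain ⟨T, hT1, hT2⟩ := h2 X (by omega) z hz hz1 q hq1 hqQ κ hκ hκq id (fun _ => le_rfl)
    have b2 := hX₃ X (by omega)
    rw [div_le_iff₀ hε] at b2
    have s0 : 0 < √2 := Real.sqrt_pos.2 (by norm_num)
    have h4 := Pool.Agent.Q42.SH.log_c (fun n => Pool.Agent.Q42.SH.Pk z κ k t (n + h) *
      Pool.Agent.Q42.SH.ph α β n) (fun n => by
        rw [norm_mul, Pool.Agent.Q42.SH.ph_norm, mul_one]
        exact Pool.Agent.Q42.SH.Pk_le z hz κ hκ k t _) (√2 / 2 + ε / 4) (by positivity) X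
      T (fun N hN1 hNX hNT => hT2 N hN1 hNX hNT α β)
    rw [sum_congr rfl fun n _ => by rw [hph n α β]]
    refine h4.trans ?_
    have e1 : (√2 / 2 + ε / 4) * (1 + Real.log X) = (√2 / 2) * Real.log X + ε / 4 * Real.log X +
      (√2 / 2 + ε / 4) := by ring
    rw [e1]
    have e2 : (√2 / 2 + ε) * Real.log X = √2 / 2 * Real.log X + ε * Real.log X := by ring
    rw [e2]
    nlinarith

end Pool.Agent.Results.MP_f3f922_nt.UniformProgressions
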